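import Pool.Agent.H8.Cwb.Simple

/-!
# List edge colourings when the edges of each colour form a bipartite graph

A multigraph is given by its vertices `V`, its edges `E` and the two ends `s e`, `t e` of each edge.
Galvin's theorem is extended from bipartite multigraphs to all multigraphs, for lists such that for
each colour the edges with this colour in their lists form a bipartite graph; the largest colour of
each list is not restricted, and two exceptional colours may be in each list. For even `k` all
multigraphs with degrees at most `k` can be coloured from such lists of `k` colours, also if they have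
no proper edge colouring with `k` colours.

Proof. The edges at each vertex are ranked, such that the sum of the numbers of the better edges at
the two ends of `e` is smaller than the length of the list of `e`. In `G - M` the edges with the tail
`v` are better than the edge of the matching `M` at `v`, and this is better than the edges with the
head `v`; otherwise the ranks are those of Borodin, Kostochka and Woodall for a bipartite multigraph.
Then the colours are used in increasing order, each one for a stable matching of the remaining edges
with this colour in their lists.
-/

set_option autoImplicit false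

namespace Pool.Agent.Results.MP_2f9829_co.ColourwiseBipartite

open Finset

/-- The edges in `F` form a bipartite graph. -/
def Bip {V E : Type} (s t : E → V) (F : Set E) : Prop :=
  ∃ side : V → Bool, ∀ e ∈ F, side (s e) ≠ side (t e)

/-- The degree of `v`. -/
noncomputable def deg {V E : Type} (s t : E → V) (v : V) : ℕ := {e | s e = v ∨ t e = v}.ncard

/-- `M` is a matching. -/
def Matching {V E : Type} (s t : E → V) (M : Set E) : Prop :=
  ∀ e ∈ M, ∀ f ∈ M, ∀ w, (s e = w ∨ t e = w) → (s f = w ∨ t f = w) → e = f

/-- All degrees are at most `k`, and `k` is even or some matching covers all vertices of degree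
`k`. -/
def DegCond {V E : Type} (s t : E → V) (k : ℕ) : Prop :=
  (∀ v, deg s t v ≤ k) ∧
    (Even k ∨ ∃ M : Set E, Matching s t M ∧ ∀ v, deg s t v = k → ∃ e ∈ M, s e = v ∨ t e = v)

/-- `c` is a proper edge colouring. -/
def Proper {V E C : Type} (s t : E → V) (c : E → C) : Prop :=
  ∀ e f, e ≠ f → ∀ w, (s e = w ∨ t e = w) → (s f = w ∨ t f = w) → c e ≠ c f

/-- There is a proper edge colouring from the lists. -/
def Colourable {V E : Type} (s t : E → V) (L : E → Finset ℕ) : Prop :=
  ∃ f : E → ℕ, (∀ e, f e ∈ L e) ∧ Proper s t f

/-- For each colour `x < N` the edges `e` with `x` in `L e`, but not as its largest colour, form a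
bipartite graph. For two different colours `x`, `y` the edges `e` such that `x`, `y` are the colours
`≥ N` in `L e` form a bipartite graph. -/
def ColourwiseBip {V E : Type} (s t : E → V) (N : ℕ) (L : E → Finset ℕ) : Prop :=
  (∀ x < N, Bip s t {e | x ∈ L e ∧ ∃ y ∈ L e, x < y}) ∧
  ∀ x y, x ≠ y → Bip s t {e | ((L e).filter fun z => N ≤ z) = {x, y}}

/-- The edges can be coloured from all lists with `ColourwiseBip` such that `L e` has at least `r e`
colours, and at least `r e - 2` colours `< N`, for each edge `e`. -/
def Suffices {V E : Type} (s t : E → V) (r : E → ℕ) : Prop :=
  ∀ (N : ℕ) (L : E → Finset ℕ), (∀ e, r e ≤ (L e).card) →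
    (∀ e, r e ≤ ((L e).filter fun z => z < N).card + 2) → ColourwiseBip s t N L →
      Colourable s t L

open Classical in
/-- The larger one of the degrees of the ends of `e`, plus one if they are equal and odd. -/
noncomputable def localNumber {V E : Type} (s t : E → V) (e : E) : ℕ :=
  max (deg s t (s e)) (deg s t (t e)) +
    if deg s t (s e) = deg s t (t e) ∧ Odd (deg s t (s e)) then 1 else 0

/-- The number of the edges outside `M` with the tail `v`; the edge `e` has the tail `p e`. -/
noncomputable def outDeg {V E : Type} (p : E → V) (M : Set E) (v : V) : ℕ :=
  {e | e ∉ M ∧ p e = v}.ncard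

/-- The number of the edges of `M` at `v`. -/
noncomputable def mDeg {V E : Type} (p q : E → V) (M : Set E) (v : V) : ℕ :=
  {e | e ∈ M ∧ (p e = v ∨ q e = v)}.ncard

open Classical in
/-- `d⁺(u) + d⁺(v) + 1` for an edge `uv` of `M`, and the maximum of `d⁺(u) + d⁺(v) + μ(v)` and `d(v)`
for an edge outside `M` with the tail `u` and the head `v`, where `μ(v)` is the number of the edges of
`M` at `v`. -/
noncomputable def orientedNumber {V E : Type} (p q : E → V) (M : Set E) (e : E) : ℕ :=
  if e ∈ M then outDeg p M (p e) + outDeg p M (q e) + 1
  else max (outDeg p M (p e) + outDeg p M (q e) + mDeg p q M (q e)) (deg p q (q e))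

/-- The edges with the property `P` form a bipartite graph. -/
def BipEdges {V : Type} (G : SimpleGraph V) (P : G.edgeSet → Prop) : Prop :=
  (SimpleGraph.fromEdgeSet {e : Sym2 V | ∃ h : e ∈ G.edgeSet, P ⟨e, h⟩}).Colorable 2

/-- **List edge colourings when the edges of each colour form a bipartite graph.** Let `G` be a finite
multigraph without loops, with vertices `V` and edges `e : E` with the ends `s e`, `t e`.

(1) If all degrees are at most `k`, and `k` is even or some matching covers all vertices of degree `k`,
then `k` colours suffice: `G` can be edge coloured from all lists `L` such that each list has at least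
`k` colours, at least `k - 2` of them `< N`, where for each colour `x < N` the edges `e` with `x ∈ L e`,
`x ≠ max (L e)` form a bipartite graph, and for two colours `x`, `y` the edges in whose lists `x`, `y`
are the colours `≥ N` form a bipartite graph. All multigraphs with a proper `k`-edge-colouring satisfy
this condition.

(2) The same with `max (deg u) (deg v)` colours for the edges `uv`, plus one if the two degrees are
equal and odd.

(3) The same with `orientedNumber` for an arbitrary orientation of `G - M` for a matching `M`; `s e` is
the tail and `t e` the head of `e`. (For bipartite `G`, oriented from one side to the other, and empty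
`M` this is the maximum of the degrees of the ends.)

(4) Let `G` have a proper `k`-edge-colouring, let its classes be partitioned into `r` blocks, and let
the colours in the lists be numbered with the blocks, such that a common colour of the lists of two
edges with a common end has the same number in both. Suppose that the list of each edge has at least
as many colours with the number of its block as there are classes in this block, and for each block of
at least three classes and for each colour `x` the edges `e` of the block, such that `x` has the number
of the block in `L e` and is not the largest such colour, form a bipartite graph. Then `G` can be edge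
coloured from the lists.

(5) Under the assumptions of (1) on `k` let `S v` be a finite set for each vertex `v`, such that the
symmetric difference of the sets of the two ends of each edge has at least `k` elements. Then there is
a proper edge colouring in which the colour of each edge is in the symmetric difference of the sets of
its ends.

(6) (1) for a simple graph `G`, in the words of the frozen statement, if `G` is `k`-edge-colourable, or
if `k` is even and all degrees are at most `k`. -/
theorem result :
    (∀ (V E : Type) [Finite V] [Finite E] (s t : E → V), (∀ e, s e ≠ t e) →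
      (∀ k, DegCond s t k → Suffices s t (fun _ => k)) ∧
      (∀ (k : ℕ) (c : E → Fin k), Proper s t c → DegCond s t k) ∧
      Suffices s t (localNumber s t) ∧
      (∀ M, Matching s t M → Suffices s t (orientedNumber s t M)) ∧
      (∀ (k : ℕ) (c : E → Fin k), Proper s t c → ∀ (r : ℕ) (ι : Fin k → Fin r)
        (L : E → Finset ℕ) (n : E → ℕ → Fin r),
        (∀ e f w x, (s e = w ∨ t e = w) → (s f = w ∨ t f = w) → x ∈ L e → x ∈ L f →
          n e x = n f x) →
        (∀ e, (univ.filter fun i => ι i = ι (c e)).card ≤
          ((L e).filter fun x => n e x = ι (c e)).card) →
        (∀ j, 3 ≤ (univ.filter fun i => ι i = j).card → ∀ x,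
          Bip s t {e | ι (c e) = j ∧ x ∈ L e ∧ n e x = j ∧ ∃ y ∈ L e, n e y = j ∧ x < y}) →
        Colourable s t L) ∧
      (∀ k, DegCond s t k → ∀ S : V → Finset ℕ,
        (∀ e, k ≤ (symmDiff (S (s e)) (S (t e))).card) →
        Colourable s t (fun e => symmDiff (S (s e)) (S (t e))))) ∧
    (∀ (V : Type) [Finite V] (G : SimpleGraph V) (k : ℕ),
      (G.lineGraph.Colorable k ∨ (Even k ∧ ∀ v, (G.neighborSet v).ncard ≤ k)) →
      ∀ (N : ℕ) (L : G.edgeSet → Finset ℕ), (∀ e, k ≤ (L e).card) →
      (∀ e, k ≤ ((L e).filter fun x => x < N).card + 2) →
      (∀ x < N, BipEdges G fun e => x ∈ L e ∧ ∃ y ∈ L e, x < y) →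
      (∀ x y, x ≠ y → BipEdges G fun e => ((L e).filter fun z => N ≤ z) = {x, y}) →
      ∃ f : G.edgeSet → ℕ, (∀ e, f e ∈ L e) ∧
        ∀ e e', G.lineGraph.Adj e e' → f e ≠ f e') := by
  refine ⟨?_, ?_⟩
  · intro V E _ _ s t hst
    refine ⟨?_, ?_, ?_, ?_, ?_, ?_⟩
    · intro k hk N L h1 h2 hL
      exact Pool.Agent.H8.Cwb.uniform s t hst k hk N L h1 h2 hL
    · intro k c hc
      exact Pool.Agent.H8.Cwb.degCond_of_proper s t k (fun e => (c e : ℕ)) (fun e => (c e).2)
        (fun e f hne w h1 h2 h => hc e f hne w h1 h2 (Fin.ext h))
    · intro N L h1 h2 hL
      exact Pool.Agent.H8.Cwb.localSizes s t hst N L h1 h2 hL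
    · intro M hM N L h1 h2 hL
      exact Pool.Agent.H8.Cwb.oriented s t hst M hM N L h1 h2 hL
    · intro k c hc r ι L n hn hL hb
      exact Pool.Agent.H8.Cwb.blocks s t hst k c hc r ι L n hn hL hb
    · intro k hk S hS
      exact Pool.Agent.H8.Cwb.sets s t hst k hk S hS
  · intro V _ G k hk N L h1 h2 hb hb2
    exact Pool.Agent.H8.Cwb.simple k hk N L h1 h2 hb hb2

end Pool.Agent.Results.MP_2f9829_co.ColourwiseBipartite
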