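import Pool.Agent.H8.Few.Principle

/-!
# List edge colourings with few different lists

The number of different lists is used as a parameter. A `k`-edge-colourable graph can be edge coloured
from all lists of at least `k` colours which take at most three different values, and for even `k`
also if each colour is in at most two of the different lists. This holds for the vertices of all
claw-free `k`-colourable graphs. For each `s` there is a number `K s`, with `K 3 = 2` and `K 4 = 3`,
such that for lists which take at most `s` different values the conjecture follows from its cases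
`k ≤ K s`, and it is true for all graphs with a `k`-edge-colouring in which the edges of any `K s`
colours form a bipartite graph.
-/

set_option autoImplicit false

namespace Pool.Agent.Results.MP_2f9829_co.FewDifferentLists

open Finset

/-- A graph is claw-free if no vertex has three different neighbours which are pairwise not
adjacent. -/
def ClawFree {V : Type} (H : SimpleGraph V) : Prop :=
  ∀ v a b c : V, H.Adj v a → H.Adj v b → H.Adj v c → a ≠ b → a ≠ c → b ≠ c →
    H.Adj a b ∨ H.Adj a c ∨ H.Adj b c

/-- The graph has a proper (vertex) colouring in which the colour of `v` is in the list `L v`. -/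
def ListColourable {V : Type} (H : SimpleGraph V) (L : V → Finset ℕ) : Prop :=
  ∃ f : V → ℕ, (∀ v, f v ∈ L v) ∧ ∀ u v, H.Adj u v → f u ≠ f v

/-- Every `k`-edge-colourable finite simple graph can be edge coloured from all lists of at least `k`
colours which take at most `s` different values. -/
def FewLists (s k : ℕ) : Prop :=
  ∀ (V : Type) [Fintype V] (G : SimpleGraph V), G.lineGraph.Colorable k →
    ∀ L : G.edgeSet → Finset ℕ, (∀ e, k ≤ (L e).card) → (Set.range L).ncard ≤ s →
      ListColourable G.lineGraph L

/-- The list edge-colouring conjecture, in the words of the frozen statement. -/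
def Conjecture : Prop :=
  ∀ (V : Type) [Fintype V] (G : SimpleGraph V) (k : ℕ),
    G.lineGraph.Colorable k ↔
      ∀ L : G.edgeSet → Finset ℕ, (∀ e, k ≤ (L e).card) →
        ∃ f : G.edgeSet → ℕ, (∀ e, f e ∈ L e) ∧
          ∀ e e', G.lineGraph.Adj e e' → f e ≠ f e'

/-- The edges whose colours are in `D` form a bipartite graph. -/
def BipartiteClasses {V : Type} (G : SimpleGraph V) {k : ℕ} (c : G.lineGraph.Coloring (Fin k))
    (D : Finset (Fin k)) : Prop :=
  (SimpleGraph.fromEdgeSet {e : Sym2 V | ∃ h : e ∈ G.edgeSet, c ⟨e, h⟩ ∈ D}).Colorable 2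

section proofs

open Pool.Agent.H8.Few

theorem kcol_of_colorable {V : Type} {H : SimpleGraph V} {k : ℕ} (h : H.Colorable k) :
    KCol H Set.univ k := by
  obtain ⟨c⟩ := h
  exact ⟨fun v => (c v : ℕ), fun v _ => (c v).2, fun u _ v _ huv he => c.valid huv (Fin.ext he)⟩

theorem colourable_of_col {V : Type} {H : SimpleGraph V} {L : V → Finset ℕ}
    (h : Col H Set.univ L) : ListColourable H L := by
  obtain ⟨f, h1, h2⟩ := h
  exact ⟨f, fun v => h1 v (Set.mem_univ v), fun u v => h2 u (Set.mem_univ u) v (Set.mem_univ v)⟩

theorem few_reduction {s K : ℕ} (hK : Dep s K) (h : ∀ k ≤ K, FewLists s k) (k : ℕ) :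
    FewLists s k := by
  classical
  intro V _ G hcol L hL hr
  by_cases hne : Nonempty G.edgeSet
  swap
  · rw [not_nonempty_iff] at hne
    exact ⟨fun e => hne.elim e, fun e => hne.elim e, fun e => hne.elim e⟩
  obtain ⟨e0⟩ := hne
  obtain ⟨c⟩ := hcol
  have : Fintype G.edgeSet := Fintype.ofFinite _
  -- the different lists
  let S : Finset (Finset ℕ) := univ.image L
  have hS : S.card ≤ s := by
    rw [← Set.ncard_coe_finset]
    simpa [S] using hr
  let g : G.edgeSet → Fin s := fun e =>
    Fin.castLE hS (S.equivFin ⟨L e, mem_image_of_mem L (mem_univ e)⟩)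
  let A0 : Fin s → Finset ℕ := fun i =>
    if hi : i.1 < S.card then (S.equivFin.symm ⟨i.1, hi⟩).1 else L e0
  have hA0 : ∀ i, k ≤ (A0 i).card := by
    intro i
    simp only [A0]
    by_cases hi : i.1 < S.card
    · rw [dif_pos hi]
      have h1 := (S.equivFin.symm ⟨i.1, hi⟩).2
      obtain ⟨e, -, he⟩ := mem_image.1 h1
      rw [← he]
      exact hL e
    · rw [dif_neg hi]
      exact hL e0
  have hg : ∀ e, A0 (g e) = L e := by
    intro e
    simp only [A0, g]
    rw [dif_pos (by
      rw [Fin.val_castLE]
      exact (S.equivFin ⟨L e, mem_image_of_mem L (mem_univ e)⟩).2)]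
    simp only [Fin.val_castLE, Fin.eta, Equiv.symm_apply_apply]
  obtain ⟨B, hB⟩ := shrink k A0 hA0
  have hc : ∀ e e', G.lineGraph.Adj e e' → (c e : ℕ) ≠ (c e' : ℕ) :=
    fun e e' hadj he => c.valid hadj (Fin.ext he)
  have hmain := reduceD hK G.lineGraph g (fun e => (c e : ℕ)) (fun D hD A hA => by
    have hsub : ∀ e : (sub G {e | (c e : ℕ) ∈ D}).edgeSet, ∃ h : e.1 ∈ G.edgeSet, True :=
      fun e => ⟨((mem_sub G _ e.1).1 e.2).1, trivial⟩
    choose p _ using hsub
    refine col_sub G {e | (c e : ℕ) ∈ D} (fun e => A (g e)) (fun e => A (g ⟨e.1, p e⟩))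
      (fun e he => Finset.Subset.refl _) ?_
    refine h D.card hD V (sub G {e | (c e : ℕ) ∈ D})
      (kcol_sub G {e | (c e : ℕ) ∈ D} (fun e => (c e : ℕ)) D (fun e he => he) hc) _
      (fun e => (hA _).ge) ?_
    calc (Set.range fun e : (sub G {e | (c e : ℕ) ∈ D}).edgeSet => A (g ⟨e.1, p e⟩)).ncard
        ≤ (Set.range A).ncard := by
          apply Set.ncard_le_ncard _ (Set.finite_range A)
          rintro _ ⟨e, rfl⟩
          exact ⟨_, rfl⟩
      _ ≤ s := by
          rw [← Set.image_univ]
          refine (Set.ncard_image_le Set.finite_univ).trans ?_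
          rw [Set.ncard_univ, Nat.card_eq_fintype_card, Fintype.card_fin]) (range k) B
    (fun i => by rw [card_range]; exact (hB i).2)
  have huniv : {e : G.edgeSet | (c e : ℕ) ∈ range k} = Set.univ := by
    ext e
    simp
  rw [huniv] at hmain
  exact colourable_of_col (hmain.mono (fun e _ => ((hB (g e)).1).trans (hg e).subset))

theorem conjecture_iff (h : ∀ s k, FewLists s k) : Conjecture := by
  classical
  intro V _ G k
  constructor
  · intro hk L hL
    exact h _ k V G hk L hL le_rfl
  · intro h1
    obtain ⟨f, hf1, hf2⟩ := h1 (fun _ => range k) (fun _ => by rw [card_range])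
    refine ⟨SimpleGraph.Coloring.mk (fun e => (⟨f e, mem_range.1 (hf1 e)⟩ : Fin k)) ?_⟩
    intro e e' hadj he
    exact hf2 e e' hadj (congrArg Fin.val he)

theorem fewLists_of_conjecture (h : Conjecture) (s k : ℕ) : FewLists s k := by
  intro V _ G hk L hL _
  exact (h V G k).1 hk L hL

theorem bipartite_case {s K : ℕ} (hK : Dep s K) {V : Type} [Finite V] (G : SimpleGraph V) (k : ℕ)
    (c : G.lineGraph.Coloring (Fin k)) (hc : ∀ D : Finset (Fin k), D.card ≤ K →
      BipartiteClasses G c D) (A : Fin s → Finset ℕ) (hA : ∀ i, k ≤ (A i).card)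
    (L : G.edgeSet → Finset ℕ) (hL : ∀ e, ∃ i, A i ⊆ L e) : ListColourable G.lineGraph L := by
  classical
  choose t ht using hL
  obtain ⟨B, hB⟩ := shrink k A hA
  have hc' : ∀ e e', G.lineGraph.Adj e e' → (c e : ℕ) ≠ (c e' : ℕ) :=
    fun e e' hadj he => c.valid hadj (Fin.ext he)
  have hmain := reduceD hK G.lineGraph t (fun e => (c e : ℕ)) (fun D hD A' hA' => by
    refine galvinD G (fun e => (c e : ℕ)) hc' D ?_ (fun e => A' (t e)) (fun e => (hA' _).ge)
    have hcard : ((univ : Finset (Fin k)).filter fun i : Fin k => (i : ℕ) ∈ D).card ≤ D.card :=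
      card_le_card_of_injOn (fun i : Fin k => (i : ℕ))
        (fun i hi => (mem_filter.1 (mem_coe.1 hi)).2) (Fin.val_injective.injOn)
    have h1 := hc _ (hcard.trans hD)
    unfold BipartiteClasses at h1
    unfold sub
    have h2 : {e : Sym2 V | ∃ h : e ∈ G.edgeSet, c ⟨e, h⟩ ∈
        (univ : Finset (Fin k)).filter fun i : Fin k => (i : ℕ) ∈ D} =
        Subtype.val '' {e : G.edgeSet | (c e : ℕ) ∈ D} := by
      ext e
      constructor
      · rintro ⟨h, he⟩
        exact ⟨⟨e, h⟩, (mem_filter.1 he).2, rfl⟩
      · rintro ⟨e', he', rfl⟩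
        exact ⟨e'.2, mem_filter.2 ⟨mem_univ _, he'⟩⟩
    rwa [h2] at h1) (range k) B (fun i => by rw [card_range]; exact (hB i).2)
  have huniv : {e : G.edgeSet | (c e : ℕ) ∈ range k} = Set.univ := by
    ext e
    simp
  rw [huniv] at hmain
  exact colourable_of_col (hmain.mono (fun e _ => ((hB (t e)).1).trans (ht e)))

end proofs

/-- **List edge colourings with few different lists.** Line graphs are claw-free. Let `H` be a finite
claw-free graph which is `k`-colourable.

(1) Let `A 0`, `A 1`, `A 2` be three sets of at least `k` colours. Then `H` is colourable from all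
lists such that each list contains one of the three sets. The same holds for four sets of exactly `k`
colours if no colour is in exactly three of them.

(2) The same holds for an arbitrary family of sets of at least `k` colours such that each colour is in
at most two sets of the family, if `k` is even or if there is a set `P` which contains exactly one
colour of each set of the family.

(3) Let `m j` be `1` or `2` for `j < r`, with the sum `k`, and let the colours in the list of each
vertex be numbered (several colours may have the same number `j < r`), such that the numbers of a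
colour in the lists of two adjacent vertices are equal and each list has at least `m j` colours with
the number `j`. Then `H` is colourable from the lists.

(4) For all `k` the list edge-colouring conjecture is true for `k`-edge-colourable simple graphs and
lists of at least `k` colours which take at most three different values.

(5) There is a function `K` with `K 3 = 2` and `K 4 = 3` such that for all `s`: (a) If `G` has a proper
`k`-edge-colouring such that the edges of any at most `K s` of the colours form a bipartite graph, then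
`G` can be edge coloured from all lists such that each list contains one of `s` given sets of at least
`k` colours. (b) For lists which take at most `s` different values, the conjecture for all `k` follows
from the conjecture for `k ≤ K s`. (c) The list edge-colouring conjecture is equivalent to these cases
for all `s`. -/
theorem result :
    (∀ (V : Type) (G : SimpleGraph V), ClawFree G.lineGraph) ∧
    (∀ (V : Type) [Finite V] (H : SimpleGraph V), ClawFree H → ∀ k : ℕ, H.Colorable k →
      (∀ A : Fin 3 → Finset ℕ, (∀ i, k ≤ (A i).card) →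
        ∀ L : V → Finset ℕ, (∀ v, ∃ i, A i ⊆ L v) → ListColourable H L) ∧
      (∀ A : Fin 4 → Finset ℕ, (∀ i, (A i).card = k) →
        (∀ x, (univ.filter fun i => x ∈ A i).card ≠ 3) →
        ∀ L : V → Finset ℕ, (∀ v, ∃ i, A i ⊆ L v) → ListColourable H L) ∧
      (∀ F : Set (Finset ℕ), (∀ A ∈ F, k ≤ A.card) →
        (∀ x : ℕ, ∀ A ∈ F, ∀ B ∈ F, ∀ C ∈ F, x ∈ A → x ∈ B → x ∈ C → A = B ∨ A = C ∨ B = C) →
        (Even k ∨ ∃ P : Set ℕ, ∀ A ∈ F, ∃! x, x ∈ A ∧ x ∈ P) →
        ∀ L : V → Finset ℕ, (∀ v, ∃ A ∈ F, A ⊆ L v) → ListColourable H L) ∧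
      (∀ (r : ℕ) (m : Fin r → ℕ), (∀ j, m j = 1 ∨ m j = 2) → ∑ j, m j = k →
        ∀ (L : V → Finset ℕ) (n : V → ℕ → Fin r),
          (∀ u v x, H.Adj u v → x ∈ L u → x ∈ L v → n u x = n v x) →
          (∀ v j, m j ≤ ((L v).filter fun x => n v x = j).card) → ListColourable H L)) ∧
    (∀ k, FewLists 3 k) ∧
    ∃ K : ℕ → ℕ, K 3 = 2 ∧ K 4 = 3 ∧
      (∀ s, (∀ (V : Type) [Finite V] (G : SimpleGraph V) (k : ℕ) (c : G.lineGraph.Coloring (Fin k)),
          (∀ D : Finset (Fin k), D.card ≤ K s → BipartiteClasses G c D) →
          ∀ A : Fin s → Finset ℕ, (∀ i, k ≤ (A i).card) →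
            ∀ L : G.edgeSet → Finset ℕ, (∀ e, ∃ i, A i ⊆ L e) → ListColourable G.lineGraph L) ∧
        ((∀ k, FewLists s k) ↔ ∀ k ≤ K s, FewLists s k)) ∧
      (Conjecture ↔ ∀ s, ∀ k ≤ K s, FewLists s k) := by
  classical
  have hcf : ∀ (V : Type) (G : SimpleGraph V), ClawFree G.lineGraph :=
    fun V G => Pool.Agent.H8.Few.lineGraph_cf G
  refine ⟨hcf, ?_, ?_, ?_⟩
  · intro V _ H hH k hk
    refine ⟨?_, ?_, ?_, ?_⟩
    · intro A hA L hL
      exact colourable_of_col (Pool.Agent.H8.Few.three hH k Set.univ (kcol_of_colorable hk) A hA L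
        (fun v _ => hL v))
    · intro A hA hno L hL
      exact colourable_of_col (Pool.Agent.H8.Few.fourSets hH k Set.univ (kcol_of_colorable hk) A hA
        hno L (fun v _ => hL v))
    · intro F hF hmul hP L hL
      refine colourable_of_col (Pool.Agent.H8.Few.atMostTwo' (I := F) hH k Set.univ
        (kcol_of_colorable hk) (fun a => a.1) (fun a => hF a.1 a.2) ?_
        (hP.imp id (fun ⟨P, h⟩ => ⟨P, fun a => h a.1 a.2⟩)) L ?_)
      · intro x A B C h1 h2 h3
        rcases hmul x A.1 A.2 B.1 B.2 C.1 C.2 h1 h2 h3 with h | h | h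
        · exact Or.inl (Subtype.ext h)
        · exact Or.inr (Or.inl (Subtype.ext h))
        · exact Or.inr (Or.inr (Subtype.ext h))
      · intro v _
        obtain ⟨A, hA, hA'⟩ := hL v
        exact ⟨⟨A, hA⟩, hA'⟩
    · intro r m hm hsum L n hn hL
      subst hsum
      exact Pool.Agent.H8.Few.principle hH r m hm hk L n hn hL
  · have h2 : ∀ k ≤ 2, FewLists 3 k := by
      intro k hk2 V _ G hk L hL _
      rcases (show k = 0 ∨ k = 1 ∨ k = 2 by omega) with rfl | rfl | rfl
      · obtain ⟨c⟩ := hk
        exact ⟨fun _ => 0, fun e => (c e).elim0, fun e => (c e).elim0⟩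
      · exact colourable_of_col (Pool.Agent.H8.Few.one (kcol_of_colorable hk) L (fun e _ => hL e))
      · exact colourable_of_col (Pool.Agent.H8.Few.two (hcf V G) (kcol_of_colorable hk) L
          (fun e _ => hL e))
    exact few_reduction Pool.Agent.H8.Few.dep_three h2
  · obtain ⟨K, hK3, hK4, hK⟩ := Pool.Agent.H8.Few.exists_bounds
    refine ⟨K, hK3, hK4, ?_, ?_⟩
    · intro s
      refine ⟨?_, ?_⟩
      · intro V _ G k c hc A hA L hL
        exact bipartite_case (hK s) G k c hc A hA L hL
      · exact ⟨fun h k _ => h k, fun h => few_reduction (hK s) h⟩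
    · constructor
      · intro h s k _
        exact fewLists_of_conjecture h s k
      · intro h
        exact conjecture_iff (fun s => few_reduction (hK s) (h s))

end Pool.Agent.Results.MP_2f9829_co.FewDifferentLists
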