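import Pool.Agent.H81.LE.Near

/-!
# MP_2f9829_co: the list edge-colouring conjecture for graphs of linear degeneracy

`C` is an absolute constant. (1) Let every vertex of a graph `G` on `n` vertices have at most `D`
neighbours, `D ≥ C d` and `D ≥ C log n`. Let `T` be a set of vertices such that `G[T]` is
`d`-degenerate and every vertex outside `T` has at most `d` neighbours in `T` and at most
`D - 2 d - C √(D log n)` neighbours outside `T`. Then `G` is edge-colourable from all lists of `D`
colours; so the list edge-colouring conjecture holds for `G` if `D` is the maximum degree. For `T` the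
set of all vertices this says that all `d`-degenerate graphs have this property.
(2) Local form: let the edges of `G` have lists `L (uv)`, let `H` be the graph of the edges with
`deg u + deg v ≥ |L (uv)| + 2`, and let `H` be `d`-degenerate. If `|L (uv)|` is at least
`deg_H u`, `deg_H v`, `C d` and `C log m` for every edge `uv` of `H`, where `m` is the number of vertices
of the component of `u` in `H`, then `G` is edge-colourable from the lists.
-/

namespace Pool.Agent.Results.MP_2f9829_co.LinearDegeneracy

/-- Every nonempty set of vertices contains a vertex with at most `d` neighbours in the set. -/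
def Degenerate {V : Type} (G : SimpleGraph V) (d : ℕ) : Prop :=
  ∀ X : Finset V, X.Nonempty → ∃ v ∈ X, {w | w ∈ X ∧ G.Adj v w}.ncard ≤ d

/-- The edges of `G` can be properly coloured from all lists of at least `k` colours. -/
def EdgeChoosable {V : Type} (G : SimpleGraph V) (k : ℕ) : Prop :=
  ∀ L : G.edgeSet → Finset ℕ, (∀ e, k ≤ (L e).card) →
    ∃ f : G.edgeSet → ℕ, (∀ e, f e ∈ L e) ∧ ∀ e e', G.lineGraph.Adj e e' → f e ≠ f e'

/-- `G` has a proper edge colouring with every edge coloured from its list. -/
def ColourableFrom {V : Type} (G : SimpleGraph V) (L : Sym2 V → Finset ℕ) : Prop :=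
  ∃ f : Sym2 V → ℕ, (∀ e ∈ G.edgeSet, f e ∈ L e) ∧
    ∀ u v w, G.Adj u v → G.Adj u w → v ≠ w → f s(u, v) ≠ f s(u, w)

/-- The graph of the edges `u v` of `G` with `deg u + deg v ≥ |L (u v)| + 2`. -/
def heavy {V : Type} (G : SimpleGraph V) (L : Sym2 V → Finset ℕ) : SimpleGraph V where
  Adj u v := G.Adj u v ∧ (L s(u, v)).card + 2 ≤ (G.neighborSet u).ncard + (G.neighborSet v).ncard
  symm := ⟨fun u v h => ⟨h.1.symm, by
    rw [Sym2.eq_swap, add_comm (G.neighborSet _).ncard]; exact h.2⟩⟩
  loopless := ⟨fun _ h => G.loopless.irrefl _ h.1⟩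

theorem result : ∃ C : ℝ,
    (∀ (V : Type) [Fintype V] (G : SimpleGraph V) (D d : ℕ) (T : Set V),
      (∀ v, (G.neighborSet v).ncard ≤ D) → C * d ≤ D → C * Real.log (Fintype.card V) ≤ D →
      Degenerate (G.induce T) d →
      (∀ v ∉ T, {w | w ∈ T ∧ G.Adj v w}.ncard ≤ d ∧
        ({w | w ∉ T ∧ G.Adj v w}.ncard : ℝ) ≤
          D - 2 * d - C * Real.sqrt (D * Real.log (Fintype.card V))) →
      EdgeChoosable G D ∧ ((∃ v, (G.neighborSet v).ncard = D) →
        ∀ k : ℕ, G.lineGraph.Colorable k ↔ EdgeChoosable G k)) ∧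
    ∀ (V : Type) [Fintype V] (G : SimpleGraph V) (L : Sym2 V → Finset ℕ) (d : ℕ),
      Degenerate (heavy G L) d →
      (∀ u v, (heavy G L).Adj u v →
        ((heavy G L).neighborSet u).ncard ≤ (L s(u, v)).card ∧ C * d ≤ (L s(u, v)).card ∧
        C * Real.log ({w | (heavy G L).Reachable u w}.ncard) ≤ (L s(u, v)).card) →
      ColourableFrom G L := by
  classical
  obtain ⟨C1, hC1, hgen⟩ := Pool.Agent.H81.LE.a_gen
  obtain ⟨C2, hC2, hnear⟩ := Pool.Agent.H81.LE.near
  refine ⟨C1 + 2 * C2, ?_, ?_⟩
  · intro V _ G D d T hdeg hd hlog hT1 hT2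
    have hlog0 : 0 ≤ Real.log (Fintype.card V) := Real.log_natCast_nonneg _
    have hd0 : (0 : ℝ) ≤ d := Nat.cast_nonneg d
    have hDlog : Real.log (Fintype.card V) ≤ D := by nlinarith
    have hsq : Real.log (Fintype.card V) ≤ Real.sqrt (D * Real.log (Fintype.card V)) := by
      apply Real.le_sqrt_of_sq_le
      rw [sq]
      exact mul_le_mul_of_nonneg_right hDlog hlog0
    have hcho : EdgeChoosable G D := by
      intro L hL
      let K : Sym2 V → Finset ℕ := fun e => if h : e ∈ G.edgeSet then L ⟨e, h⟩ else ∅
      have hK : ∀ (e : Sym2 V) (h : e ∈ G.edgeSet), K e = L ⟨e, h⟩ := fun e h => by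
        simp only [K, dif_pos h]
      obtain ⟨f, hf1, hf2⟩ := hnear V G K D d T hdeg (by
          intro X hX hXT
          have hX' : (X.subtype (fun v => v ∈ T)).Nonempty := by
            obtain ⟨x, hx⟩ := hX
            exact ⟨⟨x, hXT x hx⟩, Finset.mem_subtype.2 hx⟩
          obtain ⟨v, hv, hv'⟩ := hT1 _ hX'
          refine ⟨v.1, Finset.mem_subtype.1 hv, le_trans (le_of_eq ?_) hv'⟩
          rw [← Set.ncard_image_of_injective _ Subtype.val_injective]
          congr 1
          ext w
          constructor
          · rintro ⟨h1, h2⟩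
            exact ⟨⟨w, hXT w h1⟩, ⟨Finset.mem_subtype.2 h1, h2⟩, rfl⟩
          · rintro ⟨w', ⟨h1, h2⟩, rfl⟩
            exact ⟨Finset.mem_subtype.1 h1, h2⟩)
        (fun v hv => (hT2 v hv).1) (fun v hv => by
          have h1 := (hT2 v hv).2
          have h2 : 0 ≤ Real.sqrt (D * Real.log (Fintype.card V)) := Real.sqrt_nonneg _
          nlinarith) (by nlinarith) (by nlinarith)
        (fun e he => by
          rw [hK e he]
          exact hL _)
      refine ⟨fun e => f e, fun e => ?_, fun e e' hadj => ?_⟩
      · have := hf1 e.1 e.2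
        rwa [hK e.1 e.2] at this
      · rw [SimpleGraph.lineGraph_adj_iff_exists] at hadj
        obtain ⟨hne, x, hx, hx'⟩ := hadj
        obtain ⟨a, ha⟩ := Sym2.mem_iff_exists.mp hx
        obtain ⟨b, hb⟩ := Sym2.mem_iff_exists.mp hx'
        have h1 : G.Adj x a := by
          have := e.2
          rw [ha] at this
          exact this
        have h2 : G.Adj x b := by
          have := e'.2
          rw [hb] at this
          exact this
        have hab : a ≠ b := by
          rintro rfl
          exact hne (Subtype.ext (ha.trans hb.symm))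
        have := hf2 x a b h1 h2 hab
        rwa [← ha, ← hb] at this
    exact ⟨hcho, fun hv k => Pool.Agent.H81.LE.iff_of_choosable hcho hv k⟩
  · intro V _ G L d h1 h2
    refine hgen V G L d h1 (fun u v huv => ?_)
    obtain ⟨h3, h4, h5⟩ := h2 u v huv
    have hd0 : (0 : ℝ) ≤ d := Nat.cast_nonneg d
    have hlog0 : 0 ≤ Real.log ({w | (heavy G L).Reachable u w}.ncard) :=
      Real.log_natCast_nonneg _
    have h6 : C1 * d ≤ (L s(u, v)).card := by nlinarith
    have h7 : C1 * Real.log ({w | (heavy G L).Reachable u w}.ncard) ≤ (L s(u, v)).card := by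
      nlinarith
    exact ⟨h3, h6, h7⟩

end Pool.Agent.Results.MP_2f9829_co.LinearDegeneracy
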